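import Pool.Agent.H73.GWQ.Stmts

/-!
# Row GFQ of project GWQ (assembly for a code)
-/

set_option autoImplicit false

open Classical

namespace GWQ

variable {ι G V : Type*} [Fintype ι] [Group G] (C : QCode ι G V)

theorem nm_mul25 (D : QM G V) (g h : G) : D.nm (g * h) ≤ D.nm g + D.nm h := by
  have h1 := D.tri 1 g (g * h)
  have h2 := D.inv g 1 h
  rw [mul_one] at h2
  have h3 : D.nm (g * h) ≤ D.nm g + D.d g (g * h) := h1
  rw [h2] at h3
  exact h3

theorem nm_inv25 (D : QM G V) (g : G) : D.nm g⁻¹ = D.nm g := by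
  have h := D.inv g 1 g⁻¹
  rw [mul_one, mul_inv_cancel] at h
  have h2 : D.nm g⁻¹ = D.d g 1 := h.symm
  rw [h2, D.comm]
  rfl

theorem d_ev25 {S : Type*} (e : S → G) (D : ℕ) (hD : ∀ s, C.nm (e s) ≤ D)
    (b : List S) : C.nm (GWP.ev e b) ≤ D * b.length := by
  induction b with
  | nil =>
    have h : C.nm (1 : G) = 0 := C.self 1
    simp [GWP.ev, h]
  | cons s b ih =>
    rw [GWP.ev_cons, List.length_cons]
    calc C.nm (e s * GWP.ev e b) ≤ C.nm (e s) + C.nm (GWP.ev e b) := nm_mul25 C.toQM _ _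
      _ ≤ D + D * b.length := Nat.add_le_add (hD s) ih
      _ = D * (b.length + 1) := by ring

theorem ev_flatten25 {S G : Type*} [Group G] (e : S → G) (bs : List (List S)) :
    GWP.ev e bs.flatten = (bs.map (GWP.ev e)).prod := by
  induction bs with
  | nil => rfl
  | cons b bs ih => rw [List.flatten_cons, GWP.ev_append, ih, List.map_cons, List.prod_cons]

theorem kap25 (L : ℕ) (hL : 1 ≤ L) : ∃ κ : ℝ, 0 < κ ∧ κ < 1 ∧
    ∀ n : ℕ, (1 / 2 : ℝ) ^ (n / L) ≤ 2 * κ ^ n := by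
  have hL' : (0 : ℝ) < L := by exact_mod_cast hL
  have hκ0 : (0 : ℝ) < (1 / 2 : ℝ) ^ ((1 : ℝ) / L) := Real.rpow_pos_of_pos (by norm_num) _
  have hκ1 : (1 / 2 : ℝ) ^ ((1 : ℝ) / L) < 1 :=
    Real.rpow_lt_one (by norm_num) (by norm_num) (by positivity)
  have hκL : ((1 / 2 : ℝ) ^ ((1 : ℝ) / L)) ^ L = 1 / 2 := by
    rw [← Real.rpow_natCast, ← Real.rpow_mul (by norm_num), one_div_mul_cancel hL'.ne',
      Real.rpow_one]
  generalize (1 / 2 : ℝ) ^ ((1 : ℝ) / L) = κ at hκ0 hκ1 hκL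
  refine ⟨κ, hκ0, hκ1, fun n => ?_⟩
  have e1 : κ ^ n = (1 / 2 : ℝ) ^ (n / L) * κ ^ (n % L) := by
    conv_lhs => rw [← Nat.div_add_mod n L]
    rw [pow_add, pow_mul, hκL]
  have e2 : (1 / 2 : ℝ) ≤ κ ^ (n % L) := by
    calc (1 / 2 : ℝ) = κ ^ L := hκL.symm
      _ ≤ κ ^ (n % L) := pow_le_pow_of_le_one hκ0.le hκ1.le (Nat.mod_lt _ hL).le
  rw [e1]
  have e3 : (0 : ℝ) < (1 / 2 : ℝ) ^ (n / L) := by positivity
  nlinarith

theorem ite_inst25 (p : Prop) (i j : Decidable p) (a b : ℝ) :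
    @ite ℝ p i a b = @ite ℝ p j a b := by
  rw [Subsingleton.elim i j]

theorem GFQ (h1 : ∀ (S : Type) [Fintype S], C3QStmt C S) (h2 : ∀ B : Type, SOQStmt C.toQM B)
    (h3 : ∀ (S : Type) [Fintype S], GWT.RUNStmt S) (h4 : ∀ S : Type, GWT.BLOStmt S)
    (h5 : GWT.CPUStmt) : GFQStmt C := by
  intro k e wd k₀ hk₀ hlen hev
  obtain ⟨D, hD1, hD⟩ : ∃ D : ℕ, 1 ≤ D ∧ ∀ s, C.nm (e s) ≤ D := by
    refine ⟨max 1 (Finset.univ.sup fun s => C.nm (e s)), le_max_left _ _, fun s => ?_⟩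
    exact le_trans (Finset.le_sup (f := fun s => C.nm (e s)) (Finset.mem_univ s))
      (le_max_right _ _)
  obtain ⟨R, hR⟩ := h1 (Fin k × Bool) e D hD1 hD wd k₀ hk₀ hlen hev
  obtain ⟨L, c₁, θ, hL, hc₁, hθ, h8, h6, hsh, hcmp⟩ := hR ((1 / 16) ^ R / 4) (by positivity)
  obtain ⟨g1, hg1⟩ : ∃ g1 : List (Fin k × Bool) → Bool,
      ∀ b, g1 b = true ↔ C.nm (GWP.ev e b) < c₁ + C.δ :=
    ⟨fun b => decide (C.nm (GWP.ev e b) < c₁ + C.δ), fun b => decide_eq_true_iff⟩
  obtain ⟨g2, hg2⟩ : ∃ g2 : List (Fin k × Bool) → List (Fin k × Bool) → Bool,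
      ∀ c b, g2 c b = true ↔ Cmp C.toQM (θ - 2 * C.δ) (GWP.ev e c) (GWP.ev e b) :=
    ⟨fun c b => decide (Cmp C.toQM (θ - 2 * C.δ) (GWP.ev e c) (GWP.ev e b)),
      fun c b => decide_eq_true_iff⟩
  refine ⟨fun w => ∃ cfg ∈ GWT.runs (fun b => g1 (b.take L)) (fun c b => g2 (c.take L) (b.take L))
      (GWT.blocks L w), (GWT.blocks L w).length ≤ R * (cfg.2 + 1), h5 k L R g1 g2, ?_, ?_⟩
  · intro w hw
    obtain ⟨hb1, hb2, hb3, -⟩ := (h4 (Fin k × Bool) L hL).1 w
    have key := h2 (List (Fin k × Bool)) (GWP.ev e) (fun b => g1 (b.take L))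
      (fun c b => g2 (c.take L) (b.take L)) θ (D * L) c₁ R (fun b => b.length = L) hc₁ hθ h8 h6
    refine key ?_ ?_ ?_ (GWT.blocks L w) hb1 ?_
    · intro b hb
      have := d_ev25 C e D hD b
      rw [hb] at this
      exact this
    · intro b hb hlt
      show g1 (b.take L) = true
      rw [List.take_of_length_le (le_of_eq hb), hg1]
      exact hlt
    · intro c b hc hb hcb
      show g2 (c.take L) (b.take L) = true
      rw [List.take_of_length_le (le_of_eq hb), List.take_of_length_le (le_of_eq hc), hg2]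
      exact hcb
    · rw [← ev_flatten25]
      have hx : GWP.ev e (GWT.blocks L w).flatten * GWP.ev e (w.drop (L * (w.length / L))) = 1 := by
        rw [← GWP.ev_append, ← hb2, hw]
      have hx2 : GWP.ev e (GWT.blocks L w).flatten
          = (GWP.ev e (w.drop (L * (w.length / L))))⁻¹ := eq_inv_of_mul_eq_one_left hx
      rw [hx2, nm_inv25]
      exact le_trans (d_ev25 C e D hD _) (Nat.mul_le_mul_left _ hb3.le)
  · have hA : GWP.wsum L (fun b : List (Fin k × Bool) =>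
        if g1 (b.take L) = true then (1 : ℝ) else 0) ≤
        (1 / 16) ^ R / 4 * (Fintype.card (Fin k × Bool) : ℝ) ^ L := by
      refine le_trans (le_of_eq (GWP.wsum_congr L _ _ fun b hb => ?_)) hsh
      rw [List.take_of_length_le (le_of_eq hb)]
      by_cases hh : C.nm (GWP.ev e b) < c₁ + C.δ
      · rw [if_pos hh, if_pos ((hg1 b).2 hh)]
      · rw [if_neg hh, if_neg (fun h => hh ((hg1 b).1 h))]
    have hB : ∀ c : List (Fin k × Bool), c.length = L →
        GWP.wsum L (fun b : List (Fin k × Bool) =>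
        if g2 (c.take L) (b.take L) = true then (1 : ℝ) else 0) ≤
        (1 / 16) ^ R / 4 * (Fintype.card (Fin k × Bool) : ℝ) ^ L := by
      intro c hc
      have hdc : C.nm (GWP.ev e c) ≤ D * L := by
        have := d_ev25 C e D hD c
        rwa [hc] at this
      refine le_trans (le_of_eq (GWP.wsum_congr L _ _ fun b hb => ?_)) (hcmp (GWP.ev e c) hdc)
      rw [List.take_of_length_le (le_of_eq hb), List.take_of_length_le (le_of_eq hc)]
      by_cases hh : Cmp C.toQM (θ - 2 * C.δ) (GWP.ev e c) (GWP.ev e b)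
      · rw [if_pos hh, if_pos ((hg2 c b).2 hh)]
      · rw [if_neg hh, if_neg (fun h => hh ((hg2 c b).1 h))]
    have hrun := h3 (Fin k × Bool) (fun b => g1 (b.take L))
      (fun c b => g2 (c.take L) (b.take L)) L R hL hA hB
    obtain ⟨κ, hκ0, hκ1, hκ⟩ := kap25 L hL
    refine ⟨16 ^ R * 2, κ, by positivity, hκ0, hκ1, fun n => ?_⟩
    refine le_trans (le_trans (le_of_eq (GWP.wsum_congr n _ _ fun w _ => ?_)) (hrun n)) ?_
    · exact ite_inst25 _ _ _ _ _
    · have hq : (0 : ℝ) ≤ (Fintype.card (Fin k × Bool) : ℝ) ^ n := by positivity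
      have h16 : (0 : ℝ) ≤ (16 : ℝ) ^ R := by positivity
      have := mul_le_mul_of_nonneg_left (hκ n) h16
      calc _ ≤ 16 ^ R * (2 * κ ^ n) * (Fintype.card (Fin k × Bool) : ℝ) ^ n :=
            mul_le_mul_of_nonneg_right this hq
        _ = _ := by ring

end GWQ
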