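import Pool.Agent.H73.GWQ.Stmts

/-!
# Row PLQ of project GWQ (polygon lemma)
-/

set_option autoImplicit false

open Classical

namespace GWQ

variable {G V : Type*} [Group G] (D : QM G V)

/-- the comparison of a side of the polygon with the new block -/
theorem PLQ_cmp (θ : ℕ) (hθ : 2 * D.δ ≤ θ) (x y : G) (m : V)
    (hm : GWT.Bt D.T (D.f x) m (D.f (x * y)))
    (c g : G) (P Q : V)
    (h1 : D.T.dist m P + D.T.dist P Q + D.T.dist Q (D.f x) = D.T.dist m (D.f x))
    (h2 : θ ≤ D.T.dist P Q)
    (h3 : D.T.dist (D.f g) P + D.T.dist P Q + D.T.dist Q (D.f (g * c)) =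
      D.T.dist (D.f g) (D.f (g * c))) :
    Cmp D (θ - 2 * D.δ) c y := by
  refine ⟨g⁻¹ * x, ?_⟩
  have hm' : D.T.dist (D.f x) m + D.T.dist m (D.f (x * y)) = D.T.dist (D.f x) (D.f (x * y)) := hm
  have c1 : D.T.dist P m = D.T.dist m P := GWT.dcomm _ _
  have c2 : D.T.dist Q P = D.T.dist P Q := GWT.dcomm _ _
  have c3 : D.T.dist (D.f x) Q = D.T.dist Q (D.f x) := GWT.dcomm _ _
  have c4 : D.T.dist (D.f x) m = D.T.dist m (D.f x) := GWT.dcomm _ _
  have c5 : D.T.dist (D.f (g * c)) Q = D.T.dist Q (D.f (g * c)) := GWT.dcomm _ _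
  have t1 : D.T.dist P (D.f (x * y)) ≤ D.T.dist P m + D.T.dist m (D.f (x * y)) :=
    GWT.dtri D.tree _ _ _
  have t2 : D.T.dist (D.f g) (D.f (x * y)) ≤ D.T.dist (D.f g) P + D.T.dist P (D.f (x * y)) :=
    GWT.dtri D.tree _ _ _
  have t3 : D.T.dist (D.f (g * c)) (D.f x) ≤ D.T.dist (D.f (g * c)) Q + D.T.dist Q (D.f x) :=
    GWT.dtri D.tree _ _ _
  have a1 : D.nm (g⁻¹ * x * y) ≤ D.T.dist (D.f g) (D.f (x * y)) + D.δ := by
    have h : D.nm (g⁻¹ * x * y) = D.d g (x * y) := by
      have h := D.inv g 1 (g⁻¹ * x * y)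
      rw [mul_one, mul_assoc g⁻¹ x y, mul_inv_cancel_left] at h
      rw [mul_assoc g⁻¹ x y]
      exact h.symm
    rw [h]
    exact D.le1 _ _
  have a2 : D.d c (g⁻¹ * x) ≤ D.T.dist (D.f (g * c)) (D.f x) + D.δ := by
    have h := D.inv g c (g⁻¹ * x)
    rw [mul_inv_cancel_left] at h
    rw [← h]
    exact D.le1 _ _
  have a3 : D.T.dist (D.f g) (D.f (g * c)) ≤ D.nm c + D.δ := by
    have h := D.inv g 1 c
    rw [mul_one] at h
    have h' : D.nm c = D.d g (g * c) := h.symm
    rw [h']
    exact D.le2 _ _
  have a4 : D.T.dist (D.f x) (D.f (x * y)) ≤ D.nm y + D.δ := by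
    have h := D.inv x 1 y
    rw [mul_one] at h
    have h' : D.nm y = D.d x (x * y) := h.symm
    rw [h']
    exact D.le2 _ _
  omega

theorem PLQ (B : Type*) (h1 : PPQStmt D) : PLQStmt D B := by
  intro val sh cmp θ E c₁ ok hθ hE hlo hcmp bs
  induction bs using List.reverseRecOn with
  | nil =>
    intro _
    refine ⟨([], 0), ?_, ?_, ?_, ?_, ?_⟩
    · simp [GWT.runs]
    · simp [Pc]
    · intro c hc
      simp at hc
    · simp
    · simp
  | append_singleton bs b ih =>
    intro hok
    obtain ⟨⟨σ, cl⟩, hcfg, hPc, hσ, hcnt, hsum⟩ := ih (fun c hc => hok c (List.mem_append_left _ hc))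
    have hokb : ok b := hok b (by simp)
    simp only at hPc hσ hcnt hsum
    set x : G := (bs.map val).prod with hx
    have hprod : ((bs ++ [b]).map val).prod = x * val b := by
      rw [List.map_append, List.prod_append, ← hx]
      simp
    obtain ⟨c1, c2, c3⟩ := GWT.cen_spec D.tree (D.f 1) (D.f x) (D.f (x * val b))
    set m := GWT.cen D.tree (D.f 1) (D.f x) (D.f (x * val b)) with hmdef
    obtain ⟨r, hr, hP, hor⟩ := h1 θ (fun c => Cmp D (θ - 2 * D.δ) c (val b)) (σ.map val) (D.f x) m
      hPc c1 (fun c g P Q k1 k2 k3 => PLQ_cmp D θ hθ x (val b) m c2 c g P Q k1 k2 k3)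
    rw [List.length_map] at hr
    -- the claim
    have hclm : ¬ (GWT.clm sh cmp b σ r = true) → D.T.dist m (D.f x) ≤ θ * (r + 1) := by
      intro hn
      rcases hor with h | ⟨c', hc', hq⟩
      · exact h
      · exfalso
        apply hn
        rw [← List.map_take] at hc'
        obtain ⟨c, hc, rfl⟩ := List.mem_map.1 hc'
        have hokc : ok c := hσ c (List.mem_of_mem_take hc)
        have := hcmp c b hokc hokb hq
        unfold GWT.clm
        rw [Bool.or_eq_true]
        right
        rw [List.any_eq_true]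
        exact ⟨c, hc, this⟩
    have hshc : sh b = true → GWT.clm sh cmp b σ r = true := by
      intro h
      unfold GWT.clm
      rw [h, Bool.true_or]
    refine ⟨(b :: σ.drop r, cl + if GWT.clm sh cmp b σ r then 1 else 0), ?_, ?_, ?_, ?_, ?_⟩
    · unfold GWT.runs
      rw [List.foldl_append, List.foldl_cons, List.foldl_nil, List.mem_flatMap]
      refine ⟨(σ, cl), hcfg, ?_⟩
      unfold GWT.stp
      rw [List.mem_map]
      exact ⟨r, List.mem_range.2 (by simp only; omega), rfl⟩
    · rw [hprod]
      simp only [List.map_cons]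
      refine ⟨x, m, c3, ?_, ?_⟩
      · have e1 : D.T.dist (D.f (x * val b)) (D.f (x * val b)) = 0 := SimpleGraph.dist_self
        have c2' : D.T.dist (D.f x) m + D.T.dist m (D.f (x * val b)) =
          D.T.dist (D.f x) (D.f (x * val b)) := c2
        omega
      · rw [List.map_drop]
        exact hP
    · intro c hc
      rcases List.mem_cons.1 hc with rfl | hc
      · exact hokb
      · exact hσ c (List.mem_of_mem_drop hc)
    · rw [List.countP_append, List.countP_singleton]
      by_cases hs : sh b = true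
      · have hc := hshc hs
        simp only [hs, hc, if_true]
        omega
      · simp only [hs]
        simp only [Bool.false_eq_true, if_false, add_zero]
        exact le_trans hcnt (Nat.le_add_right _ _)
    · rw [hprod, List.countP_append, List.countP_singleton]
      simp only [List.length_cons, List.length_append, List.length_nil, List.length_drop, zero_add]
      have c1' : D.T.dist (D.f 1) m + D.T.dist m (D.f x) = D.T.dist (D.f 1) (D.f x) := c1
      have c2' : D.T.dist (D.f x) m + D.T.dist m (D.f (x * val b)) =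
        D.T.dist (D.f x) (D.f (x * val b)) := c2
      have c3' : D.T.dist (D.f 1) m + D.T.dist m (D.f (x * val b)) =
        D.T.dist (D.f 1) (D.f (x * val b)) := c3
      have c4 : D.T.dist (D.f x) m = D.T.dist m (D.f x) := GWT.dcomm _ _
      have hEb := hE b hokb x
      have hlen : σ.length = (σ.length - r) + r := by omega
      set s := σ.length - r with hs
      have hsum' : c₁ * bs.length + 2 * θ * (s + r) ≤
          D.T.dist (D.f 1) (D.f x) + c₁ * bs.countP sh + 2 * E * cl + 4 * θ * bs.length := by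
        rw [← hlen]
        exact hsum
      have hcb : c₁ ≤ D.T.dist (D.f x) (D.f (x * val b)) + c₁ * (if sh b = true then 1 else 0) := by
        by_cases hsb : sh b = true
        · rw [if_pos hsb]
          omega
        · rw [if_neg hsb]
          have := hlo b hokb (by simpa using hsb) x
          omega
      by_cases hc : GWT.clm sh cmp b σ r = true
      · rw [if_pos hc]
        have hmE : D.T.dist m (D.f x) ≤ E := by omega
        have n1 : 0 ≤ θ * r := Nat.zero_le _
        nlinarith [hmE, hsum', n1, hcb]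
      · rw [if_neg hc]
        have hmθ := hclm hc
        nlinarith [hmθ, hsum', hcb]

end GWQ
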